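import Pool.Agent.Helper31.BQ.Stmts3

set_option autoImplicit false

namespace Pool.Agent.Helper16.BQ

open Filter Topology Pool.Agent.Helper31.BQ

universe u

theorem yb_abs {Y E : Type u} [NormedAddCommGroup Y] [NormedSpace ℝ Y] [NormedAddCommGroup E]
    [NormedSpace ℝ E] (j : Y →L[ℝ] E) (d : ℕ → E →L[ℝ] ℝ)
    (hsep : ∀ y, (∀ i, d i (j y) = 0) → y = 0)
    (key : ∀ (y : ℕ → Y) (C : ℝ), (∀ n, ‖y n‖ ≤ C) → ∃ (φ : ℕ → ℕ) (z : Y), StrictMono φ ∧
      ‖z‖ ≤ C ∧ Tendsto (fun k => j (y (φ k))) atTop (𝓝 (j z))) :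
    ∃ M : ℕ → Submodule ℝ Y, Antitone M ∧ PP Y M ∧ JC M j ∧
      ∀ T ∈ VM E M, ∃ T' ∈ FR E, ∀ z, (T : Y →L[ℝ] E) z = T' (j z) := by
  obtain ⟨Δ, hΔ⟩ : ∃ Δ : ∀ m : ℕ, E →L[ℝ] (Fin m → ℝ), ∀ m e i, Δ m e i = d i e :=
    ⟨fun m => ContinuousLinearMap.pi fun i : Fin m => d i, fun m e i => rfl⟩
  obtain ⟨M, hM⟩ : ∃ M : ℕ → Submodule ℝ Y,
      M = fun m => LinearMap.ker ((Δ m).comp j : Y →ₗ[ℝ] (Fin m → ℝ)) := ⟨_, rfl⟩
  have hmem : ∀ m y, y ∈ M m ↔ ∀ i < m, d i (j y) = 0 := by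
    intro m y
    rw [hM]
    show (Δ m) (j y) = 0 ↔ _
    constructor
    · intro h i hi
      have := congrFun h ⟨i, hi⟩
      rwa [hΔ] at this
    · intro h
      funext i
      rw [hΔ]
      exact h i i.2
  have hker : ∀ m, M m ≤ LinearMap.ker ((Δ m).comp j : Y →ₗ[ℝ] (Fin m → ℝ)) := by
    intro m
    rw [hM]
  have hker' : ∀ m, LinearMap.ker ((Δ m).comp j : Y →ₗ[ℝ] (Fin m → ℝ)) ≤ M m := by
    intro m
    rw [hM]
  obtain ⟨L, hL⟩ : ∃ L : ∀ m, (Y ⧸ M m) →ₗ[ℝ] (Fin m → ℝ),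
      L = fun m => (M m).liftQ ((Δ m).comp j : Y →ₗ[ℝ] (Fin m → ℝ)) (hker m) := ⟨_, rfl⟩
  have hLa : ∀ m y, L m ((M m).mkQ y) = Δ m (j y) := by
    intro m y
    rw [hL]
    rfl
  have hLinj : ∀ m, LinearMap.ker (L m) = ⊥ := by
    intro m
    rw [hL]
    exact Submodule.ker_liftQ_eq_bot _ _ _ (hker' m)
  have hLc : ∀ m, Continuous (L m) := by
    intro m
    rw [hL]
    exact Continuous.quotient_lift ((Δ m).comp j).continuous _
  have hG : ∀ m, ∃ G : (Fin m → ℝ) →ₗ[ℝ] (Y ⧸ M m), G ∘ₗ L m = LinearMap.id := fun m =>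
    LinearMap.exists_leftInverse_of_injective (L m) (hLinj m)
  choose G hG using hG
  have hGa : ∀ m y, G m (Δ m (j y)) = (M m).mkQ y := by
    intro m y
    rw [← hLa]
    exact LinearMap.congr_fun (hG m) _
  have hGc : ∀ m, Continuous (G m) := fun m => LinearMap.continuous_of_finiteDimensional _
  have cv : ∀ (m : ℕ) (y : ℕ → Y) (z : Y), Tendsto (fun k => j (y k)) atTop (𝓝 (j z)) →
      Tendsto (fun k => (M m).mkQ (y k)) atTop (𝓝 ((M m).mkQ z)) := by
    intro m y z h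
    have h1 := (((hGc m).comp (Δ m).continuous).tendsto (j z)).comp h
    simp only [Function.comp_def, hGa] at h1
    exact h1
  have hfd : ∀ n, FiniteDimensional ℝ (Y ⧸ M n) := fun n =>
    Module.Finite.of_injective (L n) (LinearMap.ker_eq_bot.1 (hLinj n))
  refine ⟨M, ?_, ⟨?_, hfd, ?_, ?_⟩, ?_, ?_⟩
  · intro m n hmn y hy
    rw [hmem] at hy ⊢
    exact fun i hi => hy i (hi.trans_le hmn)
  · intro n
    rw [hM]
    exact ((Δ n).comp j).isClosed_ker
  · intro y ε hε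
    by_contra hcon
    push Not at hcon
    choose y' h1 h2 using hcon
    obtain ⟨φ, z, hφ, hz, hlim⟩ := key y' (‖y‖ - ε) (fun n => (h2 n).le)
    have h3 : y - z = 0 := by
      apply hsep
      intro i
      have h4 : Tendsto (fun k => d i (j (y' (φ k)))) atTop (𝓝 (d i (j z))) :=
        ((d i).continuous.tendsto _).comp hlim
      have h5 : Tendsto (fun k => d i (j (y' (φ k)))) atTop (𝓝 (d i (j y))) := by
        apply tendsto_const_nhds.congr'
        filter_upwards [eventually_gt_atTop i] with k hk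
        have h6 := (hmem _ _).1 (h1 (φ k)) i (hk.trans_le (hφ.id_le k))
        rw [map_sub, map_sub] at h6
        exact sub_eq_zero.1 h6
      rw [map_sub, map_sub, tendsto_nhds_unique h4 h5, sub_self]
    rw [sub_eq_zero.1 h3] at hz
    linarith
  · intro x C hx hv
    obtain ⟨φ, z, hφ, hz, hlim⟩ := key x C hx
    refine ⟨z, fun m => ?_⟩
    obtain ⟨v, hv⟩ := hv m
    have h1 := ((hLc m).tendsto v).comp (hv.comp hφ.tendsto_atTop)
    have h2 := ((hLc m).tendsto _).comp (cv m (fun k => x (φ k)) z hlim)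
    have h3 : L m v = L m ((M m).mkQ z) := tendsto_nhds_unique h1 h2
    rw [← LinearMap.ker_eq_bot.1 (hLinj m) h3]
    exact hv
  · intro x C y hx hm
    apply tendsto_of_subseq_tendsto
    intro ns hns
    obtain ⟨φ, z, hφ, hz, hlim⟩ := key (fun k => x (ns k)) C (fun k => hx _)
    refine ⟨φ, ?_⟩
    have h3 : z - y = 0 := by
      apply hsep
      intro i
      have h4 : Tendsto (fun k => d i (j (x (ns (φ k))))) atTop (𝓝 (d i (j z))) :=
        ((d i).continuous.tendsto _).comp hlim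
      have h5 : Tendsto (fun k => d i (j (x (ns (φ k))))) atTop (𝓝 (d i (j y))) := by
        have h6 := ((hLc (i + 1)).tendsto _).comp
          (((hm (i + 1)).comp hns).comp hφ.tendsto_atTop)
        have h7 := ((continuous_apply (⟨i, i.lt_succ_self⟩ : Fin (i + 1))).tendsto _).comp h6
        simp only [Function.comp_def, hLa, hΔ] at h7
        exact h7
      rw [map_sub, map_sub, tendsto_nhds_unique h4 h5, sub_self]
    rw [← sub_eq_zero.1 h3]
    exact hlim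
  · rintro T ⟨m, hT⟩
    have hle : M m ≤ LinearMap.ker (T : Y →ₗ[ℝ] E) := fun y hy => hT y hy
    obtain ⟨S, hS⟩ : ∃ S : (Y ⧸ M m) →ₗ[ℝ] E, ∀ y, S ((M m).mkQ y) = T y :=
      ⟨(M m).liftQ (T : Y →ₗ[ℝ] E) hle, fun y => rfl⟩
    refine ⟨(LinearMap.toContinuousLinearMap (S ∘ₗ G m)).comp (Δ m), ?_, ?_⟩
    · show FiniteDimensional ℝ (LinearMap.range
        (((LinearMap.toContinuousLinearMap (S ∘ₗ G m)).comp (Δ m) : E →L[ℝ] E) : E →ₗ[ℝ] E))
      have h1 : LinearMap.range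
          (((LinearMap.toContinuousLinearMap (S ∘ₗ G m)).comp (Δ m) : E →L[ℝ] E) : E →ₗ[ℝ] E) ≤
          LinearMap.range (S ∘ₗ G m) := by
        rintro _ ⟨e, rfl⟩
        exact ⟨Δ m e, rfl⟩
      exact Submodule.finiteDimensional_of_le h1
    · intro z
      show T z = S (G m (Δ m (j z)))
      rw [hGa, hS]

end Pool.Agent.Helper16.BQ
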